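import Pool.Agent.H137R3.EP.Pairs

/-!
Consequences of a linear relation between `1, e, π`.
-/

set_option autoImplicit false

namespace Pool.Agent.H137R3.EP

open Pool.Agent.H301R2.SSE Module

theorem pi_mem : (Real.pi : ℂ) ∈ Lt := by
  have h1 : (Real.pi : ℂ) * Complex.I ∈ Lt := by
    apply Lt_log
    rw [Complex.exp_pi_mul_I]
    exact isAlgebraic_one.neg
  have h2 := Lt_mul (a := -Complex.I) Pool.Agent.H340R2.LW.isAlgebraic_I.neg h1
  have h3 : -Complex.I * ((Real.pi : ℂ) * Complex.I) = Real.pi := by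
    have := Complex.I_mul_I
    linear_combination (-(Real.pi : ℂ)) * this
  rwa [h3] at h2

theorem e_tr : ¬ IsAlgebraic ℚ (Complex.exp 1) := exp_tr isAlgebraic_one one_ne_zero

theorem e_mem (h : Dep 1 (Complex.exp 1) (Real.pi : ℂ)) : Complex.exp 1 ∈ Lt := by
  obtain ⟨r, s, hr, hs, -, e1⟩ := normal e_tr pi_tr h
  rw [e1]
  exact Lt.add_mem (Lt_alg hr) (Lt_mul hs pi_mem)

theorem mem_of_exp {β z : ℂ} (hβ : IsAlgebraic ℚ β) (hβ0 : β ≠ 0)
    (h : IsAlgebraic ℚ (Complex.exp (β * z))) : z ∈ Lt := by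
  have h2 := Lt_mul hβ.inv (Lt_log h)
  have h3 : β⁻¹ * (β * z) = z := by field_simp
  rwa [h3] at h2

/-- `exp (β e)` is transcendental -/
theorem cons_real (h : Dep 1 (Complex.exp 1) (Real.pi : ℂ)) (β : ℝ) (hβ : IsAlgebraic ℚ β)
    (hβ0 : β ≠ 0) : Transcendental ℚ (Real.exp (β * Real.exp 1)) := by
  intro halg
  obtain ⟨r, s, hr, hs, -, e1⟩ := normal e_tr pi_tr h
  have hβC : IsAlgebraic ℚ (β : ℂ) := hβ.algebraMap (A := ℂ)
  have he : ((β * Real.exp 1 : ℝ) : ℂ) = (β : ℂ) * Complex.exp 1 := by push_cast; rfl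
  have hω : ∀ i, IsAlgebraic ℚ (Complex.exp ((![((β * Real.exp 1 : ℝ) : ℂ),
      (Real.pi : ℂ) * Complex.I] : Fin 2 → ℂ) i)) := by
    intro i
    fin_cases i
    · change IsAlgebraic ℚ (Complex.exp ((β * Real.exp 1 : ℝ) : ℂ))
      rw [← Complex.ofReal_exp]
      exact halg.algebraMap (A := ℂ)
    · change IsAlgebraic ℚ (Complex.exp ((Real.pi : ℂ) * Complex.I))
      rw [Complex.exp_pi_mul_I]
      exact isAlgebraic_one.neg
  have hli : LinearIndependent ℚ (![((β * Real.exp 1 : ℝ) : ℂ), (Real.pi : ℂ) * Complex.I] :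
      Fin 2 → ℂ) := by
    rw [LinearIndependent.pair_iff]
    intro u v huv
    have hre := congrArg Complex.re huv
    have him := congrArg Complex.im huv
    simp only [Rat.smul_def, Complex.add_re,
      Complex.add_im, Complex.mul_re, Complex.mul_im, Complex.ratCast_re, Complex.ratCast_im,
      Complex.ofReal_re, Complex.ofReal_im, Complex.I_re, Complex.I_im, Complex.zero_re,
      Complex.zero_im, mul_zero, zero_mul, sub_zero, add_zero, mul_one, zero_add, sub_self]
      at hre him
    constructor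
    · have := (mul_eq_zero.mp hre).resolve_right (mul_ne_zero hβ0 (Real.exp_pos 1).ne')
      exact_mod_cast this
    · have := (mul_eq_zero.mp him).resolve_right Real.pi_ne_zero
      exact_mod_cast this
  obtain ⟨-, h2⟩ := Pool.Agent.H297R2.baker_inhom (![((β * Real.exp 1 : ℝ) : ℂ),
      (Real.pi : ℂ) * Complex.I] : Fin 2 → ℂ) hω hli (-((β : ℂ) * r)) (hβC.mul hr).neg
    ![1, (β : ℂ) * s * Complex.I]
    (by
      intro i
      fin_cases i
      · exact isAlgebraic_one
      · exact (hβC.mul hs).mul Pool.Agent.H340R2.LW.isAlgebraic_I)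
    (by
      rw [Fin.sum_univ_two]
      simp only [Matrix.cons_val_zero, Matrix.cons_val_one]
      rw [he, e1]
      have := Complex.I_mul_I
      linear_combination ((β : ℂ) * s * Real.pi) * this)
  exact one_ne_zero (h2 0)

/-- `exp (β e²)` or `exp (γ e³)` is transcendental -/
theorem cons_pow (h : Dep 1 (Complex.exp 1) (Real.pi : ℂ)) (β γ : ℂ) (hβ : IsAlgebraic ℚ β)
    (hγ : IsAlgebraic ℚ γ) (hβ0 : β ≠ 0) (hγ0 : γ ≠ 0) :
    Transcendental ℚ (Complex.exp (β * Complex.exp 1 ^ 2)) ∨
      Transcendental ℚ (Complex.exp (γ * Complex.exp 1 ^ 3)) := by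
  by_contra hcon
  simp only [not_or, Transcendental, not_not] at hcon
  obtain ⟨h1, h2⟩ := hcon
  have h3 := mem_of_exp hβ hβ0 h1
  have h4 := mem_of_exp hγ hγ0 h2
  have he := e_mem h
  refine no_three (Complex.exp 1) e_tr (fun i : Fin 3 => Complex.exp 1 ^ (i : ℕ))
    (pow_linInd _ e_tr 3) ?_ ?_
  · intro j
    fin_cases j
    · simpa using Lt_one
    · simpa using he
    · exact h3
  · intro j
    rw [← pow_succ']
    fin_cases j
    · simpa using he
    · exact h3
    · exact h4

/-- independence over the field of algebraic numbers of three numbers -/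
theorem three_li {x y z : ℂ} (h : ∀ a b c : ℂ, IsAlgebraic ℚ a → IsAlgebraic ℚ b →
    IsAlgebraic ℚ c → a * x + b * y + c * z = 0 → a = 0 ∧ b = 0 ∧ c = 0) :
    LinearIndependent QB ![x, y, z] := by
  rw [Fintype.linearIndependent_iff]
  intro g hg
  rw [Fin.sum_univ_three] at hg
  obtain ⟨h1, h2, h3⟩ := h (g 0) (g 1) (g 2) (mem_QB.1 (g 0).2) (mem_QB.1 (g 1).2)
    (mem_QB.1 (g 2).2) hg
  intro i
  fin_cases i
  · exact Subtype.ext h1
  · exact Subtype.ext h2
  · exact Subtype.ext h3

/-- `exp (e l₁)` or `exp (e l₂)` is transcendental for independent logarithms `l₁, l₂` -/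
theorem cons_logs (h : Dep 1 (Complex.exp 1) (Real.pi : ℂ)) (μ ν : ℂ)
    (hμ : IsAlgebraic ℚ (Complex.exp μ)) (hν : IsAlgebraic ℚ (Complex.exp ν))
    (hli : LinearIndependent ℚ ![μ, ν]) :
    Transcendental ℚ (Complex.exp (Complex.exp 1 * μ)) ∨
      Transcendental ℚ (Complex.exp (Complex.exp 1 * ν)) := by
  by_contra hcon
  simp only [not_or, Transcendental, not_not] at hcon
  obtain ⟨h1, h2⟩ := hcon
  have he := e_mem h
  refine no_three (Complex.exp 1) e_tr ![1, μ, ν] (three_li ?_) ?_ ?_
  · intro x y z hx hy hz hsum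
    obtain ⟨e1, e2⟩ := Pool.Agent.H297R2.baker_inhom (![μ, ν] : Fin 2 → ℂ)
      (by
        intro i
        fin_cases i
        · exact hμ
        · exact hν) hli x hx ![y, z]
      (by
        intro i
        fin_cases i
        · exact hy
        · exact hz)
      (by
        rw [Fin.sum_univ_two]
        simp only [Matrix.cons_val_zero, Matrix.cons_val_one]
        linear_combination hsum)
    exact ⟨e1, e2 0, e2 1⟩
  · intro j
    fin_cases j
    · exact Lt_one
    · exact Lt_log hμ
    · exact Lt_log hν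
  · intro j
    fin_cases j
    · simpa using he
    · exact Lt_log h1
    · exact Lt_log h2

/-- `exp (β e²)` or `exp (e μ)` is transcendental, `μ` a logarithm which is no rational multiple
of `π i` -/
theorem cons_mixed (h : Dep 1 (Complex.exp 1) (Real.pi : ℂ)) (β μ : ℂ) (hβ : IsAlgebraic ℚ β)
    (hβ0 : β ≠ 0) (hμ : IsAlgebraic ℚ (Complex.exp μ))
    (hli : LinearIndependent ℚ ![(Real.pi : ℂ) * Complex.I, μ]) :
    Transcendental ℚ (Complex.exp (β * Complex.exp 1 ^ 2)) ∨
      Transcendental ℚ (Complex.exp (Complex.exp 1 * μ)) := by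
  by_contra hcon
  simp only [not_or, Transcendental, not_not] at hcon
  obtain ⟨h1, h2⟩ := hcon
  have h3 := mem_of_exp hβ hβ0 h1
  have he := e_mem h
  obtain ⟨r, s, hr, hs, hs0, e1⟩ := normal e_tr pi_tr h
  refine no_three (Complex.exp 1) e_tr ![1, Complex.exp 1, μ] (three_li ?_) ?_ ?_
  · intro x y z hx hy hz hsum
    obtain ⟨e2, e3⟩ := Pool.Agent.H297R2.baker_inhom (![(Real.pi : ℂ) * Complex.I, μ] : Fin 2 → ℂ)
      (by
        intro i
        fin_cases i
        · change IsAlgebraic ℚ (Complex.exp ((Real.pi : ℂ) * Complex.I))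
          rw [Complex.exp_pi_mul_I]
          exact isAlgebraic_one.neg
        · exact hμ) hli (x + y * r) (hx.add (hy.mul hr)) ![-(y * s * Complex.I), z]
      (by
        intro i
        fin_cases i
        · exact ((hy.mul hs).mul Pool.Agent.H340R2.LW.isAlgebraic_I).neg
        · exact hz)
      (by
        rw [Fin.sum_univ_two]
        simp only [Matrix.cons_val_zero, Matrix.cons_val_one]
        rw [e1] at hsum
        have := Complex.I_mul_I
        linear_combination hsum - (y * s * Real.pi) * this)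
    have h4 : y * s * Complex.I = 0 := neg_eq_zero.1 (e3 0)
    have hy0 : y = 0 := by
      rcases mul_eq_zero.1 h4 with h5 | h5
      · exact (mul_eq_zero.1 h5).resolve_right hs0
      · exact absurd h5 Complex.I_ne_zero
    refine ⟨?_, hy0, e3 1⟩
    rw [hy0, zero_mul, add_zero] at e2
    exact e2
  · intro j
    fin_cases j
    · exact Lt_one
    · exact he
    · exact Lt_log hμ
  · intro j
    fin_cases j
    · simpa using he
    · change Complex.exp 1 * Complex.exp 1 ∈ Lt
      rw [← sq]
      exact h3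
    · exact Lt_log h2

end Pool.Agent.H137R3.EP
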