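import Pool.Agent.H301R2.SSE.Forms
import Pool.Agent.H364R2.PiE

/-!
Rank of numbers modulo linear forms in logarithms, from the strong six exponentials theorem.
-/

set_option autoImplicit false

namespace Pool.Agent.H137R3.EP

open Pool.Agent.H301R2.SSE Module

/-- three independent numbers of `Lt` are not all mapped into `Lt` by multiplication with `θ` -/
theorem no_three (θ : ℂ) (hθ : ¬ IsAlgebraic ℚ θ) (y : Fin 3 → ℂ) (hy : LinearIndependent QB y)
    (h1 : ∀ j, y j ∈ Lt) (h2 : ∀ j, θ * y j ∈ Lt) : False := by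
  refine strong_six ![1, θ] y ?_ ?_ ?_
  · intro a b ha hb h
    simp only [Matrix.cons_val_zero, Matrix.cons_val_one, mul_one] at h
    by_cases hb0 : b = 0
    · subst hb0
      simp only [zero_mul, add_zero] at h
      exact ⟨h, rfl⟩
    · exfalso
      apply hθ
      have h3 : θ = -a * b⁻¹ := by
        field_simp
        linear_combination h
      rw [h3]
      exact ha.neg.mul hb.inv
  · intro c hc hsum j
    have h3 := Fintype.linearIndependent_iff.1 hy (fun j => ⟨c j, mem_QB.2 (hc j)⟩) (by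
      rw [← hsum]
      rfl) j
    exact congrArg Subtype.val h3
  · intro i j
    fin_cases i
    · simpa using h1 j
    · simpa using h2 j

/-- the general rank inequality -/
theorem rank_ineq {n : ℕ} (θ : ℂ) (hθ : ¬ IsAlgebraic ℚ θ) (Y : Fin n → ℂ)
    (hY : LinearIndependent QB Y) (R₁ R₂ : Submodule QB (ℂ ⧸ Lt)) [FiniteDimensional QB R₁]
    [FiniteDimensional QB R₂] (h1 : ∀ i, Submodule.Quotient.mk (p := Lt) (Y i) ∈ R₁)
    (h2 : ∀ i, Submodule.Quotient.mk (p := Lt) (θ * Y i) ∈ R₂) :
    n ≤ finrank QB R₁ + finrank QB R₂ + 2 := by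
  by_contra hcon
  push Not at hcon
  let u : Fin n → R₁ := fun i => ⟨_, h1 i⟩
  let v : Fin n → R₂ := fun i => ⟨_, h2 i⟩
  let φ : (Fin n → QB) →ₗ[QB] R₁ × R₂ :=
    (Fintype.linearCombination QB u).prod (Fintype.linearCombination QB v)
  have hk : 3 ≤ finrank QB (LinearMap.ker φ) := by
    have h3 := LinearMap.finrank_range_add_finrank_ker φ
    have h4 : finrank QB (LinearMap.range φ) ≤ finrank QB (R₁ × R₂) := Submodule.finrank_le _
    rw [Module.finrank_prod] at h4
    rw [Module.finrank_fin_fun] at h3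
    omega
  obtain ⟨f, hf⟩ := exists_linearIndependent_of_le_finrank hk
  have hf' : LinearIndependent QB (fun j => (f j : Fin n → QB)) :=
    hf.map' (LinearMap.ker φ).subtype (Submodule.ker_subtype _)
  let L : (Fin n → QB) →ₗ[QB] ℂ := Fintype.linearCombination QB Y
  have hL : LinearMap.ker L = ⊥ := by
    rw [LinearMap.ker_eq_bot]
    exact linearIndependent_iff_injective_fintypeLinearCombination.1 hY
  have hy : LinearIndependent QB (fun j => L (f j : Fin n → QB)) := hf'.map' L hL
  have hker : ∀ j, φ (f j : Fin n → QB) = 0 := fun j => (f j).2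
  refine no_three θ hθ (fun j => L (f j : Fin n → QB)) hy ?_ ?_
  · intro j
    have h3 : Fintype.linearCombination QB u (f j : Fin n → QB) = 0 := congrArg Prod.fst (hker j)
    have h4 := congrArg (R₁.subtype) h3
    rw [Fintype.linearCombination_apply, map_sum, map_zero] at h4
    rw [← Submodule.Quotient.mk_eq_zero]
    change Lt.mkQ (L (f j : Fin n → QB)) = 0
    rw [Fintype.linearCombination_apply, map_sum, ← h4]
    refine Finset.sum_congr rfl fun i _ => ?_
    rw [map_smul, map_smul]
    rfl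
  · intro j
    have h3 : Fintype.linearCombination QB v (f j : Fin n → QB) = 0 := congrArg Prod.snd (hker j)
    have h4 := congrArg (R₂.subtype) h3
    rw [Fintype.linearCombination_apply, map_sum, map_zero] at h4
    rw [← Submodule.Quotient.mk_eq_zero]
    change Lt.mkQ (θ * L (f j : Fin n → QB)) = 0
    rw [Fintype.linearCombination_apply, Finset.mul_sum, map_sum, ← h4]
    refine Finset.sum_congr rfl fun i _ => ?_
    rw [mul_smul_comm, map_smul, map_smul]
    rfl

/-- choice of a subfamily which is independent modulo `1` and logarithms -/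
theorem select {ι : Type} [Fintype ι] [DecidableEq ι] (g : ι → ℂ) :
    ∃ I : Finset ι, I.card = finrank QB (Submodule.span QB
        (Set.range (fun i => Submodule.Quotient.mk (p := Lt) (g i)))) ∧
      ∀ (m : ℕ) (ω : Fin m → ℂ), (∀ j, IsAlgebraic ℚ (Complex.exp (ω j))) →
        LinearIndependent ℚ ω → ∀ (c₀ : ℂ) (c : ι → ℂ) (d : Fin m → ℂ), IsAlgebraic ℚ c₀ →
          (∀ i, IsAlgebraic ℚ (c i)) → (∀ j, IsAlgebraic ℚ (d j)) →
          c₀ + ∑ i ∈ I, c i * g i + ∑ j, d j * ω j = 0 →
          c₀ = 0 ∧ (∀ i ∈ I, c i = 0) ∧ ∀ j, d j = 0 := by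
  classical
  obtain ⟨κ, a, ha, hspan, hli⟩ := exists_linearIndependent' QB
    (fun i => Submodule.Quotient.mk (p := Lt) (g i))
  have : Fintype κ := Fintype.ofInjective a ha
  refine ⟨Finset.univ.image a, ?_, ?_⟩
  · rw [Finset.card_image_of_injective _ ha, ← hspan, finrank_span_eq_card hli, Finset.card_univ]
  · intro m ω hω hωli c₀ c d hc₀ hc hd hsum
    rw [Finset.sum_image (fun x _ y _ h => ha h)] at hsum
    have hmem : ∑ k, c (a k) * g (a k) ∈ Lt := by
      have h1 : ∑ k, c (a k) * g (a k) = -c₀ + ∑ j, (-d j) * ω j := by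
        simp only [neg_mul, Finset.sum_neg_distrib]
        linear_combination hsum
      rw [h1]
      refine Lt.add_mem (Lt_alg hc₀.neg) (Lt.sum_mem fun j _ => Lt_mul (hd j).neg (Lt_log (hω j)))
    have hz : ∀ k, c (a k) = 0 := by
      intro k
      have h1 := Fintype.linearIndependent_iff.1 hli (fun k => ⟨c (a k), mem_QB.2 (hc _)⟩) (by
        have h2 : Lt.mkQ (∑ k, c (a k) * g (a k)) = 0 := by
          change Submodule.Quotient.mk (p := Lt) _ = 0
          rw [Submodule.Quotient.mk_eq_zero]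
          exact hmem
        rw [map_sum] at h2
        rw [← h2]
        refine Finset.sum_congr rfl fun k _ => ?_
        rfl) k
      exact congrArg Subtype.val h1
    have hsum' : c₀ + ∑ j, d j * ω j = 0 := by
      simpa [hz] using hsum
    obtain ⟨h1, h2⟩ := Pool.Agent.H297R2.baker_inhom ω hω hωli c₀ hc₀ d hd hsum'
    refine ⟨h1, ?_, h2⟩
    intro i hi
    obtain ⟨k, -, rfl⟩ := Finset.mem_image.1 hi
    exact hz k

/-- transcendence over the field of algebraic numbers -/
theorem tr_QB {θ : ℂ} (hθ : ¬ IsAlgebraic ℚ θ) : Transcendental QB θ := by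
  have hQ : Algebra.IsAlgebraic ℚ QB := ⟨fun x => by
    have h1 : IsAlgebraic ℚ (algebraMap QB ℂ x) := mem_QB.1 x.2
    exact (isAlgebraic_algebraMap_iff (algebraMap QB ℂ).injective).1 h1⟩
  exact fun h => hθ (h.restrictScalars ℚ)

/-- the powers of a transcendental number are independent over the algebraic numbers -/
theorem pow_linInd (θ : ℂ) (hθ : ¬ IsAlgebraic ℚ θ) (n : ℕ) :
    LinearIndependent QB (fun i : Fin n => θ ^ (i : ℕ)) := by
  have h1 : LinearIndependent QB (fun i : ℕ => θ ^ i) := by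
    have h2 := (Polynomial.basisMonomials QB).linearIndependent.map'
      (Polynomial.aeval θ).toLinearMap (by
        rw [LinearMap.ker_eq_bot]
        exact transcendental_iff_injective.1 (tr_QB hθ))
    have h3 : (fun i : ℕ => θ ^ i) =
        (Polynomial.aeval θ).toLinearMap ∘ (Polynomial.basisMonomials QB) := by
      funext i
      simp [Polynomial.coe_basisMonomials]
    rw [h3]
    exact h2
  exact h1.comp (fun i : Fin n => (i : ℕ)) Fin.val_injective

/-- **Powers of a transcendental number.** Among `θ, …, θ ^ N` at least `(N - 2) / 2` are linearly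
independent over the algebraic numbers together with `1` and arbitrary independent logarithms. -/
theorem powers (θ : ℂ) (hθ : ¬ IsAlgebraic ℚ θ) (N : ℕ) :
    ∃ I : Finset ℕ, I ⊆ Finset.Icc 1 N ∧ N ≤ 2 * I.card + 2 ∧
      ∀ (m : ℕ) (ω : Fin m → ℂ), (∀ j, IsAlgebraic ℚ (Complex.exp (ω j))) →
        LinearIndependent ℚ ω → ∀ (c₀ : ℂ) (c : ℕ → ℂ) (d : Fin m → ℂ), IsAlgebraic ℚ c₀ →
          (∀ i, IsAlgebraic ℚ (c i)) → (∀ j, IsAlgebraic ℚ (d j)) →
          c₀ + ∑ i ∈ I, c i * θ ^ i + ∑ j, d j * ω j = 0 →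
          c₀ = 0 ∧ (∀ i ∈ I, c i = 0) ∧ ∀ j, d j = 0 := by
  classical
  obtain ⟨I, hI, hsel⟩ := select (fun i : Fin N => θ ^ ((i : ℕ) + 1))
  set R := Submodule.span QB (Set.range (fun i : Fin N =>
    Submodule.Quotient.mk (p := Lt) (θ ^ ((i : ℕ) + 1)))) with hR
  have hfin : FiniteDimensional QB R := FiniteDimensional.span_of_finite _ (Set.finite_range _)
  have h1 : N ≤ finrank QB R + finrank QB R + 2 := by
    refine rank_ineq θ hθ (fun i : Fin N => θ ^ (i : ℕ)) (pow_linInd θ hθ N) R R ?_ ?_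
    · intro i
      rcases Nat.eq_zero_or_pos (i : ℕ) with h0 | h0
      · rw [h0, pow_zero]
        have : Submodule.Quotient.mk (p := Lt) (1 : ℂ) = 0 := by
          rw [Submodule.Quotient.mk_eq_zero]
          exact Lt_one
        rw [this]
        exact R.zero_mem
      · have h2 : (i : ℕ) - 1 < N := by omega
        have h3 : ((⟨(i : ℕ) - 1, h2⟩ : Fin N) : ℕ) + 1 = i := by
          simp only
          omega
        rw [← h3]
        exact Submodule.subset_span ⟨_, rfl⟩
    · intro i
      rw [← pow_succ']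
      exact Submodule.subset_span ⟨i, rfl⟩
  refine ⟨I.image (fun i : Fin N => (i : ℕ) + 1), ?_, ?_, ?_⟩
  · intro k hk
    obtain ⟨i, -, rfl⟩ := Finset.mem_image.1 hk
    rw [Finset.mem_Icc]
    omega
  · rw [Finset.card_image_of_injective _ (fun a b h => Fin.ext (by simpa using h)), hI]
    omega
  · intro m ω hω hli c₀ c d hc₀ hc hd hsum
    rw [Finset.sum_image (fun a _ b _ h => Fin.ext (by simpa using h))] at hsum
    obtain ⟨e1, e2, e3⟩ := hsel m ω hω hli c₀ (fun i => c ((i : ℕ) + 1)) d hc₀ (fun i => hc _) hd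
      hsum
    refine ⟨e1, ?_, e3⟩
    intro k hk
    obtain ⟨i, hi, rfl⟩ := Finset.mem_image.1 hk
    exact e2 i hi

/-- **Multiplication of logarithms by a transcendental number.** All but at most two of the numbers
`θ, θ ω₁, …, θ ω_m` are linearly independent over the algebraic numbers together with
`1, ω₁, …, ω_m`. -/
theorem multiples (θ : ℂ) (hθ : ¬ IsAlgebraic ℚ θ) (m : ℕ) (ω : Fin m → ℂ)
    (hω : ∀ j, IsAlgebraic ℚ (Complex.exp (ω j))) (hli : LinearIndependent ℚ ω) :
    ∃ I : Finset (Option (Fin m)), m ≤ I.card + 1 ∧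
      ∀ (c₀ : ℂ) (c : Option (Fin m) → ℂ) (d : Fin m → ℂ), IsAlgebraic ℚ c₀ →
          (∀ i, IsAlgebraic ℚ (c i)) → (∀ j, IsAlgebraic ℚ (d j)) →
          c₀ + ∑ i ∈ I, c i * (θ * i.elim 1 ω) + ∑ j, d j * ω j = 0 →
          c₀ = 0 ∧ (∀ i ∈ I, c i = 0) ∧ ∀ j, d j = 0 := by
  classical
  obtain ⟨I, hI, hsel⟩ := select (fun i : Option (Fin m) => θ * i.elim 1 ω)
  set R := Submodule.span QB (Set.range (fun i : Option (Fin m) =>
    Submodule.Quotient.mk (p := Lt) (θ * i.elim 1 ω))) with hR
  have hfin : FiniteDimensional QB R := FiniteDimensional.span_of_finite _ (Set.finite_range _)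
  let Y : Fin (m + 1) → ℂ := Fin.cons 1 ω
  have hY : LinearIndependent QB Y := by
    rw [Fintype.linearIndependent_iff]
    intro g hg
    rw [Fin.sum_univ_succ] at hg
    have h2 : ((g 0 : QB) : ℂ) + ∑ j, ((g (Fin.succ j) : QB) : ℂ) * ω j = 0 := by
      rw [← hg]
      congr 1
      change _ = ((g 0 : QB) : ℂ) * 1
      rw [mul_one]
    obtain ⟨e1, e2⟩ := Pool.Agent.H297R2.baker_inhom ω hω hli _ (mem_QB.1 (g 0).2)
      (fun j => ((g (Fin.succ j) : QB) : ℂ)) (fun j => mem_QB.1 (g _).2) h2
    intro i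
    refine Fin.cases ?_ (fun j => ?_) i
    · exact Subtype.ext e1
    · exact Subtype.ext (e2 j)
  have h1 : m + 1 ≤ finrank QB (⊥ : Submodule QB (ℂ ⧸ Lt)) + finrank QB R + 2 := by
    refine rank_ineq θ hθ Y hY ⊥ R ?_ ?_
    · intro i
      rw [Submodule.mem_bot, Submodule.Quotient.mk_eq_zero]
      refine Fin.cases ?_ (fun j => ?_) i
      · exact Lt_one
      · exact Lt_log (hω j)
    · intro i
      refine Fin.cases ?_ (fun j => ?_) i
      · exact Submodule.subset_span ⟨none, rfl⟩
      · exact Submodule.subset_span ⟨some j, rfl⟩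
  rw [finrank_bot] at h1
  exact ⟨I, by omega, fun c₀ c d h1 h2 h3 h4 => hsel m ω hω hli c₀ c d h1 h2 h3 h4⟩

end Pool.Agent.H137R3.EP
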