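import Pool.Agent.H340R2.LW2
import Pool.Agent.H137R3.EP.Rank

/-!
Linear dependence of `1, exp α, π ^ k` over the algebraic numbers.
-/

set_option autoImplicit false

namespace Pool.Agent.H137R3.EP

open Pool.Agent.H301R2.SSE Module Polynomial

/-- `x, y, z` are linearly dependent over the field of algebraic numbers -/
def Dep (x y z : ℂ) : Prop :=
  ∃ a b c : ℂ, IsAlgebraic ℚ a ∧ IsAlgebraic ℚ b ∧ IsAlgebraic ℚ c ∧
    ¬ (a = 0 ∧ b = 0 ∧ c = 0) ∧ a * x + b * y + c * z = 0

/-- Lindemann-Weierstrass with repeated exponents -/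
theorem lw_fiber {ι : Type} [DecidableEq ι] (s : Finset ι) (a u : ι → ℂ)
    (ha : ∀ i ∈ s, IsAlgebraic ℚ (a i)) (hu : ∀ i ∈ s, IsAlgebraic ℚ (u i))
    (h : ∑ i ∈ s, u i * Complex.exp (a i) = 0) (v : ℂ) :
    ∑ i ∈ s.filter (fun i => a i = v), u i = 0 := by
  classical
  by_cases hv : v ∈ s.image a
  · have h1 := Pool.Agent.H340R2.LW.lindemann_weierstrass (s.image a) (fun w => w)
      (fun w => ∑ i ∈ s.filter (fun i => a i = w), u i)
      (by
        intro w hw
        obtain ⟨i, hi, rfl⟩ := Finset.mem_image.1 hw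
        exact ha i hi)
      (by
        intro w _
        exact mem_QB.1 (sum_mem fun i hi => mem_QB.2 (hu i (Finset.mem_filter.1 hi).1)))
      (fun x _ y _ hxy => hxy)
      (by
        rw [← h, ← Finset.sum_fiberwise_of_maps_to (g := a) (t := s.image a)
          (fun i hi => Finset.mem_image_of_mem _ hi)]
        refine Finset.sum_congr rfl fun w _ => ?_
        rw [Finset.sum_mul]
        refine Finset.sum_congr rfl fun i hi => ?_
        rw [(Finset.mem_filter.1 hi).2])
    exact h1 v hv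
  · rw [Finset.filter_eq_empty_iff.2, Finset.sum_empty]
    intro i hi hiv
    exact hv (Finset.mem_image.2 ⟨i, hi, hiv⟩)

/-- Hermite-Lindemann -/
theorem exp_tr {α : ℂ} (hα : IsAlgebraic ℚ α) (hα0 : α ≠ 0) :
    ¬ IsAlgebraic ℚ (Complex.exp α) := by
  intro h
  have h1 := lw_fiber (Finset.univ : Finset (Fin 2)) ![0, α] ![Complex.exp α, -1]
    (by
      intro i _
      fin_cases i
      · exact isAlgebraic_zero
      · exact hα)
    (by
      intro i _
      fin_cases i
      · exact h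
      · exact isAlgebraic_one.neg)
    (by simp [Fin.sum_univ_two]) α
  have h2 : (Finset.univ : Finset (Fin 2)).filter (fun i => (![0, α] : Fin 2 → ℂ) i = α) =
      {1} := by
    ext i
    fin_cases i
    · simp [hα0.symm]
    · simp
  rw [h2, Finset.sum_singleton] at h1
  simp at h1

theorem pi_tr : ¬ IsAlgebraic ℚ (Real.pi : ℂ) := Pool.Agent.H340R2.LW.transcendental_pi_complex

/-- normal form of a relation -/
theorem normal {x y : ℂ} (hx : ¬ IsAlgebraic ℚ x) (hy : ¬ IsAlgebraic ℚ y) (h : Dep 1 x y) :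
    ∃ a b : ℂ, IsAlgebraic ℚ a ∧ IsAlgebraic ℚ b ∧ b ≠ 0 ∧ x = a + b * y := by
  obtain ⟨a, b, c, ha, hb, hc, hne, h⟩ := h
  have hb0 : b ≠ 0 := by
    rintro rfl
    by_cases hc0 : c = 0
    · subst hc0
      apply hne
      simp only [mul_one, zero_mul, add_zero] at h
      exact ⟨h, rfl, rfl⟩
    · apply hy
      have : y = -a * c⁻¹ := by
        field_simp
        linear_combination h
      rw [this]
      exact ha.neg.mul hc.inv
  have hc0 : c ≠ 0 := by
    rintro rfl
    apply hx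
    have : x = -a * b⁻¹ := by
      field_simp
      linear_combination h
    rw [this]
    exact ha.neg.mul hb.inv
  refine ⟨-a * b⁻¹, -c * b⁻¹, ha.neg.mul hb.inv, hc.neg.mul hb.inv, ?_, ?_⟩
  · exact mul_ne_zero (neg_ne_zero.2 hc0) (inv_ne_zero hb0)
  · field_simp
    linear_combination h

theorem pi_pow_tr {k : ℕ} (hk : 0 < k) : ¬ IsAlgebraic ℚ ((Real.pi : ℂ) ^ k) :=
  fun h => pi_tr (h.of_pow hk)

/-- the exponents are proportional, first step -/
theorem step {α β a b c d : ℂ} (hα : IsAlgebraic ℚ α) (hα0 : α ≠ 0) (hβ : IsAlgebraic ℚ β)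
    (ha : IsAlgebraic ℚ a) (hb : IsAlgebraic ℚ b) (hc : IsAlgebraic ℚ c) (hd : IsAlgebraic ℚ d)
    (hd0 : d ≠ 0) (k l : ℕ) (t : ℂ) (h1 : Complex.exp α = a + b * t ^ k)
    (h2 : Complex.exp β = c + d * t ^ l) : ∃ j ≤ k, (j : ℂ) * β = l * α := by
  classical
  by_contra hcon
  push Not at hcon
  let s : Finset (ℕ ⊕ ℕ) := (Finset.range (l + 1)).disjSum (Finset.range (k + 1))
  let e : ℕ ⊕ ℕ → ℂ := Sum.elim (fun i => (i : ℂ) * α) (fun j => (j : ℂ) * β)
  let u : ℕ ⊕ ℕ → ℂ := Sum.elim (fun i => d ^ k * ((-a) ^ (l - i) * (l.choose i : ℂ)))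
    (fun j => -(b ^ l * ((-c) ^ (k - j) * (k.choose j : ℂ))))
  have hnat : ∀ n : ℕ, IsAlgebraic ℚ (n : ℂ) := fun n => isAlgebraic_natCast n
  have hsum : ∑ i ∈ s, u i * Complex.exp (e i) = 0 := by
    rw [Finset.sum_disjSum]
    have e1 : ∑ i ∈ Finset.range (l + 1), u (Sum.inl i) * Complex.exp (e (Sum.inl i)) =
        d ^ k * (Complex.exp α - a) ^ l := by
      rw [sub_eq_add_neg, add_pow, Finset.mul_sum]
      refine Finset.sum_congr rfl fun i _ => ?_
      simp only [u, e, Sum.elim_inl]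
      rw [Complex.exp_nat_mul]
      ring
    have e2 : ∑ j ∈ Finset.range (k + 1), u (Sum.inr j) * Complex.exp (e (Sum.inr j)) =
        -(b ^ l * (Complex.exp β - c) ^ k) := by
      rw [sub_eq_add_neg, add_pow, Finset.mul_sum, ← Finset.sum_neg_distrib]
      refine Finset.sum_congr rfl fun i _ => ?_
      simp only [u, e, Sum.elim_inr]
      rw [Complex.exp_nat_mul]
      ring
    rw [e1, e2, h1, h2]
    ring
  have hfib := lw_fiber s e u
    (by
      intro i _
      rcases i with i | j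
      · exact (hnat i).mul hα
      · exact (hnat j).mul hβ)
    (by
      intro i _
      rcases i with i | j
      · exact (hd.pow k).mul (((ha.neg).pow _).mul (hnat _))
      · exact ((hb.pow l).mul (((hc.neg).pow _).mul (hnat _))).neg)
    hsum ((l : ℂ) * α)
  have hfil : s.filter (fun i => e i = (l : ℂ) * α) = {Sum.inl l} := by
    ext i
    rw [Finset.mem_filter, Finset.mem_singleton]
    constructor
    · rintro ⟨hi, hie⟩
      rcases i with i | j
      · have h3 : (i : ℂ) * α = l * α := hie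
        have h4 : (i : ℂ) = l := mul_right_cancel₀ hα0 h3
        rw [Nat.cast_inj.1 h4]
      · exfalso
        have h3 : j ∈ Finset.range (k + 1) := by
          simpa [s] using hi
        rw [Finset.mem_range] at h3
        exact hcon j (by omega) hie
    · rintro rfl
      refine ⟨by simp [s], rfl⟩
  rw [hfil, Finset.sum_singleton] at hfib
  simp only [u, Sum.elim_inl, Nat.sub_self, pow_zero, Nat.choose_self, Nat.cast_one,
    mul_one] at hfib
  exact pow_ne_zero k hd0 hfib

/-- coefficient comparison -/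
theorem coeff_cmp {a b c d : QB} (ha : a ≠ 0) (hb : b ≠ 0) {k l : ℕ} (hk : 0 < k) (hl : 0 < l)
    (h : (C a + C b * X ^ k : QB[X]) ^ l = (C c + C d * X ^ l) ^ k) : l ∣ k := by
  have e1 : (C a + C b * X ^ k : QB[X]) ^ l = expand QB k ((C a + C b * X) ^ l) := by
    simp
  have e2 : (C c + C d * X ^ l : QB[X]) ^ k = expand QB l ((C c + C d * X) ^ k) := by
    simp
  have h1 : ((C a + C b * X ^ k : QB[X]) ^ l).coeff k = ((C c + C d * X ^ l : QB[X]) ^ k).coeff k := by
    rw [h]
  rw [e1, e2, coeff_expand hk, coeff_expand hl, if_pos (dvd_refl k), Nat.div_self hk] at h1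
  by_contra hcon
  rw [if_neg hcon] at h1
  have h2 : (derivative ((C a + C b * X : QB[X]) ^ l)).coeff 0 = 0 := by
    rw [coeff_derivative, zero_add, h1]
    simp
  rw [derivative_pow, coeff_zero_eq_eval_zero] at h2
  simp at h2
  rcases h2 with h2 | h2
  · rcases h2 with h2 | h2
    · omega
    · exact ha h2.1
  · exact hb h2

/-- **The exceptional pairs.** -/
theorem pairs {α β : ℂ} (hα : IsAlgebraic ℚ α) (hα0 : α ≠ 0) (hβ : IsAlgebraic ℚ β)
    (hβ0 : β ≠ 0) {k l : ℕ} (hk : 0 < k) (hl : 0 < l)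
    (h1 : Dep 1 (Complex.exp α) ((Real.pi : ℂ) ^ k))
    (h2 : Dep 1 (Complex.exp β) ((Real.pi : ℂ) ^ l)) :
    (α = β ∧ k = l) ∨ ((l : ℂ) * α = k * β ∧
      IsAlgebraic ℚ (Complex.exp α / (Real.pi : ℂ) ^ k) ∧
      IsAlgebraic ℚ (Complex.exp β / (Real.pi : ℂ) ^ l)) := by
  obtain ⟨a, b, ha, hb, hb0, e1⟩ := normal (exp_tr hα hα0) (pi_pow_tr hk) h1
  obtain ⟨c, d, hc, hd, hd0, e2⟩ := normal (exp_tr hβ hβ0) (pi_pow_tr hl) h2
  obtain ⟨j, hj, hj'⟩ := step hα hα0 hβ ha hb hc hd hd0 k l _ e1 e2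
  obtain ⟨i, hi, hi'⟩ := step hβ hβ0 hα hc hd ha hb hb0 l k _ e2 e1
  have hprop : (l : ℂ) * α = k * β := by
    have h3 : (i : ℂ) * j * β = l * k * β := by
      linear_combination (i : ℂ) * hj' + (l : ℂ) * hi'
    have h4 : (i : ℂ) * j = l * k := mul_right_cancel₀ hβ0 h3
    have h5 : i * j = l * k := by exact_mod_cast h4
    have h6 : j = k := by
      by_contra hne
      have h7 : j < k := lt_of_le_of_ne hj hne
      have h8 : i * j < l * k := by
        calc i * j ≤ l * j := Nat.mul_le_mul_right _ hi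
          _ < l * k := Nat.mul_lt_mul_of_pos_left h7 hl
      omega
    rw [← hj', h6]
  have hpi0 : (Real.pi : ℂ) ≠ 0 := by exact_mod_cast Real.pi_ne_zero
  let A : QB := ⟨a, mem_QB.2 ha⟩
  let B : QB := ⟨b, mem_QB.2 hb⟩
  let G : QB := ⟨c, mem_QB.2 hc⟩
  let D : QB := ⟨d, mem_QB.2 hd⟩
  have hA : algebraMap QB ℂ A = a := rfl
  have hB : algebraMap QB ℂ B = b := rfl
  have hG : algebraMap QB ℂ G = c := rfl
  have hD : algebraMap QB ℂ D = d := rfl
  have hpol : (C A + C B * X ^ k : QB[X]) ^ l = (C G + C D * X ^ l) ^ k := by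
    have hinj := transcendental_iff_injective.1 (tr_QB pi_tr)
    apply hinj
    simp only [map_pow, map_add, map_mul, aeval_C, aeval_X, hA, hB, hG, hD]
    rw [← e1, ← e2, ← Complex.exp_nat_mul, ← Complex.exp_nat_mul, hprop]
  have hB0 : B ≠ 0 := fun h => hb0 (congrArg Subtype.val h)
  have hD0 : D ≠ 0 := fun h => hd0 (congrArg Subtype.val h)
  have hac : a ^ l = c ^ k := by
    have h3 := congrArg (fun p => p.coeff 0) hpol
    simp only [coeff_zero_eq_eval_zero, eval_pow, eval_add, eval_C, eval_mul, eval_X] at h3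
    rw [zero_pow hk.ne', zero_pow hl.ne', mul_zero, mul_zero, add_zero, add_zero] at h3
    exact congrArg Subtype.val h3
  by_cases ha0 : a = 0
  · right
    have hc0 : c = 0 := by
      rw [ha0, zero_pow hl.ne'] at hac
      exact pow_eq_zero_iff hk.ne' |>.1 hac.symm
    refine ⟨hprop, ?_, ?_⟩
    · rw [e1, ha0, zero_add, mul_div_assoc, div_self (pow_ne_zero _ hpi0), mul_one]
      exact hb
    · rw [e2, hc0, zero_add, mul_div_assoc, div_self (pow_ne_zero _ hpi0), mul_one]
      exact hd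
  · left
    have hc0 : c ≠ 0 := by
      rintro rfl
      rw [zero_pow hk.ne'] at hac
      exact ha0 (pow_eq_zero_iff hl.ne' |>.1 hac)
    have h3 : l ∣ k := coeff_cmp (fun h => ha0 (congrArg Subtype.val h)) hB0 hk hl hpol
    have h4 : k ∣ l := coeff_cmp (fun h => hc0 (congrArg Subtype.val h)) hD0 hl hk hpol.symm
    have h5 : k = l := Nat.dvd_antisymm h4 h3
    refine ⟨?_, h5⟩
    rw [h5] at hprop
    exact mul_left_cancel₀ (Nat.cast_ne_zero.2 hl.ne') hprop

/-- **Logarithms.** For each exponent there is at most one class of logarithms. -/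
theorem log_classes {α : ℂ} (hα : IsAlgebraic ℚ α) (hα0 : α ≠ 0) {μ ν : ℂ}
    (hμ : IsAlgebraic ℚ (Complex.exp μ)) (hν : IsAlgebraic ℚ (Complex.exp ν))
    (hli : LinearIndependent ℚ ![μ, ν]) (h1 : Dep 1 (Complex.exp α) μ)
    (h2 : Dep 1 (Complex.exp α) ν) : False := by
  have hpair := LinearIndependent.pair_iff.1 hli
  have hω : ∀ i, IsAlgebraic ℚ (Complex.exp ((![μ, ν] : Fin 2 → ℂ) i)) := by
    intro i
    fin_cases i
    · exact hμ
    · exact hν
  have key : ∀ x y z : ℂ, IsAlgebraic ℚ x → IsAlgebraic ℚ y → IsAlgebraic ℚ z →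
      x + y * μ + z * ν = 0 → x = 0 ∧ y = 0 ∧ z = 0 := by
    intro x y z hx hy hz h
    obtain ⟨e1, e2⟩ := Pool.Agent.H297R2.baker_inhom (![μ, ν] : Fin 2 → ℂ) hω hli x hx ![y, z]
      (by
        intro i
        fin_cases i
        · exact hy
        · exact hz)
      (by
        rw [Fin.sum_univ_two]
        simp only [Matrix.cons_val_zero, Matrix.cons_val_one]
        linear_combination h)
    exact ⟨e1, e2 0, e2 1⟩
  have hμt : ¬ IsAlgebraic ℚ μ := by
    intro h
    have := (key (-μ) 1 0 h.neg isAlgebraic_one isAlgebraic_zero (by ring)).2.1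
    exact one_ne_zero this
  have hνt : ¬ IsAlgebraic ℚ ν := by
    intro h
    have := (key (-ν) 0 1 h.neg isAlgebraic_zero isAlgebraic_one (by ring)).2.2
    exact one_ne_zero this
  obtain ⟨a, b, ha, hb, hb0, e1⟩ := normal (exp_tr hα hα0) hμt h1
  obtain ⟨c, d, hc, hd, hd0, e2⟩ := normal (exp_tr hα hα0) hνt h2
  have := (key (a - c) b (-d) (ha.sub hc) hb hd.neg (by linear_combination e2 - e1)).2.1
  exact hb0 this

end Pool.Agent.H137R3.EP
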