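import Pool.Agent.H137R3.EP.Cons

/-!
Numbers `exp (a ξ θ ^ k)`: few of them are algebraic, and about half of the exponents are
independent modulo linear forms in logarithms.
-/

set_option autoImplicit false

namespace Pool.Agent.H137R3.EP

open Pool.Agent.H301R2.SSE Module

/-- all powers of a transcendental number -/
theorem pow_linInd' (θ : ℂ) (hθ : ¬ IsAlgebraic ℚ θ) :
    LinearIndependent QB (fun i : ℕ => θ ^ i) := by
  have h2 := (Polynomial.basisMonomials QB).linearIndependent.map'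
    (Polynomial.aeval θ).toLinearMap (by
      rw [LinearMap.ker_eq_bot]
      exact transcendental_iff_injective.1 (tr_QB hθ))
  have h3 : (fun i : ℕ => θ ^ i) =
      (Polynomial.aeval θ).toLinearMap ∘ (Polynomial.basisMonomials QB) := by
    funext i
    simp [Polynomial.coe_basisMonomials]
  rw [h3]
  exact h2

theorem scaled {ι : Type} {ξ : ℂ} (hξ : ξ ≠ 0) {y : ι → ℂ} (hy : LinearIndependent QB y) :
    LinearIndependent QB (fun i => ξ * y i) :=
  hy.map' (LinearMap.mulLeft QB ξ) (by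
    rw [LinearMap.ker_eq_bot]
    intro a b hab
    exact mul_left_cancel₀ hξ hab)

/-- three exponents and a common difference -/
theorem no_three_exp {ξ θ : ℂ} (hξ : ξ ≠ 0) (hθ : ¬ IsAlgebraic ℚ θ) (k : Fin 3 → ℕ)
    (hk : Function.Injective k) (d : ℕ) (hd : 0 < d) (h1 : ∀ j, ξ * θ ^ (k j) ∈ Lt)
    (h2 : ∀ j, ξ * θ ^ (k j + d) ∈ Lt) : False := by
  refine no_three (θ ^ d) (fun h => hθ (h.of_pow hd)) (fun j => ξ * θ ^ (k j)) ?_ h1 ?_
  · exact scaled hξ ((pow_linInd' θ hθ).comp k hk)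
  · intro j
    have : θ ^ d * (ξ * θ ^ (k j)) = ξ * θ ^ (k j + d) := by
      rw [pow_add]
      ring
    rw [this]
    exact h2 j

theorem inj3 {a b c : ℕ} (h1 : a ≠ b) (h2 : a ≠ c) (h3 : b ≠ c) :
    Function.Injective (![a, b, c] : Fin 3 → ℕ) := by
  intro i j hij
  fin_cases i <;> fin_cases j <;> simp_all

/-- the counting bound in a window of `N` exponents -/
theorem window {ξ θ : ℂ} (hξ : ξ ≠ 0) (hθ : ¬ IsAlgebraic ℚ θ) (M N : ℕ) (S : Finset ℕ)
    (hS : S ⊆ Finset.Icc (M + 1) (M + N)) (h : ∀ k ∈ S, ξ * θ ^ k ∈ Lt) :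
    S.card * S.card ≤ S.card + 4 * (N - 1) := by
  classical
  rcases Nat.eq_zero_or_pos N with hN | hN
  · subst hN
    have : S = ∅ := by
      rw [Finset.eq_empty_iff_forall_notMem]
      intro k hk
      have := Finset.mem_Icc.1 (hS hk)
      omega
    simp [this]
  let t : Finset ℤ := (Finset.Icc (-((N : ℤ) - 1)) ((N : ℤ) - 1)).erase 0
  have ht : t.card = 2 * (N - 1) := by
    rw [Finset.card_erase_of_mem (by rw [Finset.mem_Icc]; omega), Int.card_Icc]
    omega
  have hle : S.offDiag.card ≤ 2 * t.card := by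
    refine Finset.card_le_mul_card_image_of_maps_to (f := fun p : ℕ × ℕ => (p.2 : ℤ) - p.1) ?_ 2 ?_
    · rintro ⟨a, b⟩ hab
      rw [Finset.mem_offDiag] at hab
      have h1 := Finset.mem_Icc.1 (hS hab.1)
      have h2 := Finset.mem_Icc.1 (hS hab.2.1)
      have h3 : a ≠ b := hab.2.2
      change (b : ℤ) - a ∈ (Finset.Icc (-((N : ℤ) - 1)) ((N : ℤ) - 1)).erase 0
      rw [Finset.mem_erase, Finset.mem_Icc]
      simp only at h1 h2
      omega
    · intro z hz
      by_contra hcon
      push Not at hcon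
      obtain ⟨p, hp, q, hq, r, hr, hpq, hpr, hqr⟩ := Finset.two_lt_card.1 hcon
      simp only [Finset.mem_filter, Finset.mem_offDiag] at hp hq hr
      have hz0 : z ≠ 0 := (Finset.mem_erase.1 hz).1
      have hne : ∀ {u v : ℕ × ℕ}, (u.2 : ℤ) - u.1 = z → (v.2 : ℤ) - v.1 = z → u ≠ v →
          u.1 ≠ v.1 ∧ u.2 ≠ v.2 := by
        intro u v hu hv huv
        constructor
        · intro h1
          apply huv
          exact Prod.ext h1 (by omega)
        · intro h1
          apply huv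
          exact Prod.ext (by omega) h1
      obtain ⟨a1, a2⟩ := hne hp.2 hq.2 hpq
      obtain ⟨b1, b2⟩ := hne hp.2 hr.2 hpr
      obtain ⟨c1, c2⟩ := hne hq.2 hr.2 hqr
      rcases lt_or_gt_of_ne hz0 with hneg | hpos
      · refine no_three_exp hξ hθ ![p.2, q.2, r.2] (inj3 a2 b2 c2) (-z).toNat (by omega) ?_ ?_
        · intro j
          fin_cases j
          · exact h _ hp.1.2.1
          · exact h _ hq.1.2.1
          · exact h _ hr.1.2.1
        · intro j
          fin_cases j
          · have : p.2 + (-z).toNat = p.1 := by omega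
            change ξ * θ ^ (p.2 + (-z).toNat) ∈ Lt
            rw [this]; exact h _ hp.1.1
          · have : q.2 + (-z).toNat = q.1 := by omega
            change ξ * θ ^ (q.2 + (-z).toNat) ∈ Lt
            rw [this]; exact h _ hq.1.1
          · have : r.2 + (-z).toNat = r.1 := by omega
            change ξ * θ ^ (r.2 + (-z).toNat) ∈ Lt
            rw [this]; exact h _ hr.1.1
      · refine no_three_exp hξ hθ ![p.1, q.1, r.1] (inj3 a1 b1 c1) z.toNat (by omega) ?_ ?_
        · intro j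
          fin_cases j
          · exact h _ hp.1.1
          · exact h _ hq.1.1
          · exact h _ hr.1.1
        · intro j
          fin_cases j
          · have : p.1 + z.toNat = p.2 := by omega
            change ξ * θ ^ (p.1 + z.toNat) ∈ Lt
            rw [this]; exact h _ hp.1.2.1
          · have : q.1 + z.toNat = q.2 := by omega
            change ξ * θ ^ (q.1 + z.toNat) ∈ Lt
            rw [this]; exact h _ hq.1.2.1
          · have : r.1 + z.toNat = r.2 := by omega
            change ξ * θ ^ (r.1 + z.toNat) ∈ Lt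
            rw [this]; exact h _ hr.1.2.1
  rw [Finset.offDiag_card, ht] at hle
  omega

/-- rank of a window of exponents -/
theorem window_rank {ξ θ : ℂ} (hξ : ξ ≠ 0) (hθ : ¬ IsAlgebraic ℚ θ) (M N : ℕ) :
    ∃ I : Finset ℕ, I ⊆ Finset.Icc (M + 1) (M + N) ∧ N ≤ 2 * I.card + 3 ∧
      ∀ (m : ℕ) (ω : Fin m → ℂ), (∀ j, IsAlgebraic ℚ (Complex.exp (ω j))) →
        LinearIndependent ℚ ω → ∀ (c₀ : ℂ) (c : ℕ → ℂ) (d : Fin m → ℂ), IsAlgebraic ℚ c₀ →
          (∀ i, IsAlgebraic ℚ (c i)) → (∀ j, IsAlgebraic ℚ (d j)) →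
          c₀ + ∑ i ∈ I, c i * (ξ * θ ^ i) + ∑ j, d j * ω j = 0 →
          c₀ = 0 ∧ (∀ i ∈ I, c i = 0) ∧ ∀ j, d j = 0 := by
  classical
  rcases Nat.eq_zero_or_pos N with hN | hN
  · subst hN
    refine ⟨∅, by simp, by simp, ?_⟩
    intro m ω hω hli c₀ c d hc₀ hc hd hsum
    simp only [Finset.sum_empty, add_zero] at hsum
    obtain ⟨h1, h2⟩ := Pool.Agent.H297R2.baker_inhom ω hω hli c₀ hc₀ d hd hsum
    exact ⟨h1, by simp, h2⟩
  obtain ⟨N, rfl⟩ : ∃ n, N = n + 1 := ⟨N - 1, by omega⟩
  obtain ⟨I, hI, hsel⟩ := select (fun i : Fin (N + 1) => ξ * θ ^ (M + 1 + (i : ℕ)))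
  set R := Submodule.span QB (Set.range (fun i : Fin (N + 1) =>
    Submodule.Quotient.mk (p := Lt) (ξ * θ ^ (M + 1 + (i : ℕ))))) with hR
  have hfin : FiniteDimensional QB R := FiniteDimensional.span_of_finite _ (Set.finite_range _)
  have h1 : N ≤ finrank QB R + finrank QB R + 2 := by
    refine rank_ineq θ hθ (fun i : Fin N => ξ * θ ^ (M + 1 + (i : ℕ)))
      (scaled hξ ((pow_linInd' θ hθ).comp (fun i : Fin N => M + 1 + (i : ℕ))
        (fun a b h => Fin.ext (by simpa using h)))) R R ?_ ?_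
    · intro i
      exact Submodule.subset_span ⟨Fin.castSucc i, rfl⟩
    · intro i
      have : θ * (ξ * θ ^ (M + 1 + (i : ℕ))) = ξ * θ ^ (M + 1 + ((Fin.succ i : Fin (N + 1)) : ℕ)) := by
        rw [Fin.val_succ, ← add_assoc, pow_succ]
        ring
      rw [this]
      exact Submodule.subset_span ⟨Fin.succ i, rfl⟩
  refine ⟨I.image (fun i : Fin (N + 1) => M + 1 + (i : ℕ)), ?_, ?_, ?_⟩
  · intro k hk
    obtain ⟨i, -, rfl⟩ := Finset.mem_image.1 hk
    rw [Finset.mem_Icc]
    omega
  · rw [Finset.card_image_of_injective _ (fun a b h => Fin.ext (by simpa using h)), hI]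
    omega
  · intro m ω hω hli c₀ c d hc₀ hc hd hsum
    rw [Finset.sum_image (fun a _ b _ h => Fin.ext (by simpa using h))] at hsum
    obtain ⟨e1, e2, e3⟩ := hsel m ω hω hli c₀ (fun i => c (M + 1 + (i : ℕ))) d hc₀
      (fun i => hc _) hd hsum
    refine ⟨e1, ?_, e3⟩
    intro k hk
    obtain ⟨i, hi, rfl⟩ := Finset.mem_image.1 hk
    exact e2 i hi

end Pool.Agent.H137R3.EP
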